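import Pool.Agent.H28S.Dfs

/-!
# The 2-(7,3,1) designs and the simple 2-(7,3,2) designs
-/

set_option autoImplicit false
set_option maxRecDepth 100000

namespace Pool.Agent.H28S

open Finset

/-- The 35 triples. -/
def L7 : List (List (Fin 7)) := [
  [4, 5, 6], [3, 5, 6], [3, 4, 6], [3, 4, 5], [2, 5, 6], [2, 4, 6], [2, 4, 5], [2, 3, 6],
  [2, 3, 5], [2, 3, 4], [1, 5, 6], [1, 4, 6], [1, 4, 5], [1, 3, 6], [1, 3, 5], [1, 3, 4],
  [1, 2, 6], [1, 2, 5], [1, 2, 4], [1, 2, 3], [0, 5, 6], [0, 4, 6], [0, 4, 5], [0, 3, 6],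
  [0, 3, 5], [0, 3, 4], [0, 2, 6], [0, 2, 5], [0, 2, 4], [0, 2, 3], [0, 1, 6], [0, 1, 5],
  [0, 1, 4], [0, 1, 3], [0, 1, 2]]

/-- The 21 pairs. -/
def P7 : Fin 21 → List (Fin 7) := ![
  [0, 1], [0, 2], [0, 3], [0, 4], [0, 5], [0, 6], [1, 2], [1, 3], [1, 4], [1, 5], [1, 6],
  [2, 3], [2, 4], [2, 5], [2, 6], [3, 4], [3, 5], [3, 6], [4, 5], [4, 6], [5, 6]]

/-- The packed incidences of the triples. -/
def W7 : List ℕ := [
  1289206049823413143339008, 1209239414263882237083648, 75854164552598283091968,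
  4741966148447961612288, 1208925896175822840004608, 75557936064983338057728,
  4722371267944249294848, 295219980365576798208, 18451265265522966528, 1153220571769602048,
  1208925819615797405810688, 75557863727018130014208, 4722366482942659657728,
  295147906279132889088, 18446744142697463808, 1152921509170249728, 72058693566332928,
  4503668363624448, 281479288455168, 17592471257088, 1208925819614629175820288,
  75557863725914324471808, 4722366482869645283328, 295147905179353874688, 18446744073709617408,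
  1152921504606851328, 72057594038976528, 4503599627436048, 281474976714768, 17592186044688,
  1099512676353, 68719542273, 4294971393, 268435713, 16777233]

/-- Membership in a list of numbers. -/
noncomputable def memL (l : List ℕ) (m : ℕ) : Bool :=
  List.rec (motive := fun _ => Bool) false (fun a _ ih => cond (Nat.beq m a) true ih) l

theorem memL_mem : ∀ (l : List ℕ) (m : ℕ), memL l m = true → m ∈ l
  | [], _, h => by cases h
  | a :: l, m, h => by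
    have h' : cond (Nat.beq m a) true (memL l m) = true := h
    cases hb : Nat.beq m a
    · rw [hb] at h'
      exact List.mem_cons_of_mem _ (memL_mem l m h')
    · exact List.mem_cons.2 (Or.inl (Nat.eq_of_beq_eq_true hb))

/-- The indicator of an incidence. -/
def inc7 (v : List (Fin 7)) (e : Fin 21) : ℕ := if (P7 e).toFinset ⊆ v.toFinset then 1 else 0

theorem W7_eq : L7.map (fun v => pack (inc7 v)) = W7 := by decide +kernel

theorem L7_nodup : (L7.map List.toFinset).Nodup := by decide +kernel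

theorem L7_card : ∀ v ∈ L7, v.toFinset.card = 3 := by decide +kernel

theorem L7_nd : ∀ v ∈ L7, v.Nodup := by decide +kernel

theorem L7_all : ∀ A : Finset (Fin 7), A.card = 3 → A ∈ L7.map List.toFinset := by decide +kernel

theorem P7_card : ∀ e, (P7 e).toFinset.card = 2 := by decide +kernel

theorem five7 : ∀ J : Finset (Fin 7), J.card = 2 →
    (univ.filter (fun A : Finset (Fin 7) => A.card = 3 ∧ J ⊆ A)).card = 5 := by decide +kernel

/-- Codes. -/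
def S1 : List ℕ := [
  4378923266, 2298552450, 8632013058, 8627953794, 2290237506, 4366549058, 4580214020,
  2701166724, 8866792200, 9131033232, 3229648968, 5372937296, 17215653124, 17214736516,
  17249141512, 17315201680, 17247766600, 17314743376, 2686599204, 4564729892, 3223396392,
  5369827376, 8859164712, 9127465008, 621287425, 419963905, 1116739585, 1113596929, 412107265,
  610288129]

/-- Permutations. -/
def S1f : List (List ℕ) := [
  [0, 1, 2, 3, 4, 5, 6], [0, 1, 2, 3, 4, 6, 5], [0, 1, 2, 3, 5, 4, 6], [0, 1, 2, 3, 5, 6, 4],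
  [0, 1, 2, 3, 6, 4, 5], [0, 1, 2, 3, 6, 5, 4], [0, 1, 2, 4, 3, 5, 6], [0, 1, 2, 4, 3, 6, 5],
  [0, 1, 2, 4, 5, 3, 6], [0, 1, 2, 4, 5, 6, 3], [0, 1, 2, 4, 6, 3, 5], [0, 1, 2, 4, 6, 5, 3],
  [0, 1, 2, 5, 3, 4, 6], [0, 1, 2, 5, 3, 6, 4], [0, 1, 2, 5, 4, 3, 6], [0, 1, 2, 5, 4, 6, 3],
  [0, 1, 2, 5, 6, 3, 4], [0, 1, 2, 5, 6, 4, 3], [0, 1, 2, 6, 3, 4, 5], [0, 1, 2, 6, 3, 5, 4],
  [0, 1, 2, 6, 4, 3, 5], [0, 1, 2, 6, 4, 5, 3], [0, 1, 2, 6, 5, 3, 4], [0, 1, 2, 6, 5, 4, 3],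
  [0, 1, 3, 2, 4, 5, 6], [0, 1, 3, 2, 4, 6, 5], [0, 1, 3, 2, 5, 4, 6], [0, 1, 3, 2, 5, 6, 4],
  [0, 1, 3, 2, 6, 4, 5], [0, 1, 3, 2, 6, 5, 4]]

/-- Codes. -/
def S2 : List ℕ := [
  13238087978, 11426017458, 13196742950, 11314552998, 7660064882, 7589945450, 21827980620,
  20015910100, 26081528716, 26346686356, 20544850648, 22622078808, 21582202182, 19504974022,
  25877095306, 25947214738, 19546319050, 21693666642, 8059536500, 7794378860, 12354429624,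
  14236619576, 11560331436, 13707679028, 3844683817, 5789791281, 3803338789, 5678326821,
  9539572273, 9469452841, 3649612873, 5994224721, 3113273989, 5190502149, 10247772817,
  9980389129, 3403834435, 5483288643, 2908840579, 4791030531, 9249241219, 9051976963,
  17925031505, 17659873865, 18428798609, 18365881097, 17634700421, 17836940549, 19950308236,
  21895415700, 20445302092, 22587673812, 26181535576, 26378799832, 11165344650, 13509956498,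
  6870451526, 7067715782, 14004950354, 11857602762, 11855409450, 13997781170, 7065522470,
  6863282342, 13494014066, 11149402218, 26376606520, 26174366392, 22585480500, 20438132908,
  21879473268, 19934365804, 17825024645, 17627760389, 18361363529, 18431482961, 17669105417,
  17936489105, 9040061059, 9242301187, 4786512963, 2911524931, 5492520195, 3415292035,
  9975904297, 10241061937, 5186017317, 3106563109, 5980115505, 3635503657, 9488079625,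
  9550997137, 5696953605, 3814763653, 5785044561, 3839937097, 13695763124, 11553391404,
  14232102008, 12357113976, 7803610412, 8070994100, 21681750738, 19539379018, 25942697170,
  25879779658, 19514205574, 21593659782, 22617593976, 20538139768, 26342201524, 26074817836,
  20001800884, 21813871404, 7608572234, 7671489746, 11333179782, 13208167814, 11421270738,
  13233341258]

/-- Permutations. -/
def S2f : List (List ℕ) := [
  [0, 1, 2, 3, 4, 5, 6], [0, 1, 2, 3, 4, 6, 5], [0, 1, 2, 3, 5, 4, 6], [0, 1, 2, 3, 5, 6, 4],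
  [0, 1, 2, 3, 6, 4, 5], [0, 1, 2, 3, 6, 5, 4], [0, 1, 2, 4, 3, 5, 6], [0, 1, 2, 4, 3, 6, 5],
  [0, 1, 2, 4, 5, 3, 6], [0, 1, 2, 4, 5, 6, 3], [0, 1, 2, 4, 6, 3, 5], [0, 1, 2, 4, 6, 5, 3],
  [0, 1, 2, 5, 3, 4, 6], [0, 1, 2, 5, 3, 6, 4], [0, 1, 2, 5, 4, 3, 6], [0, 1, 2, 5, 4, 6, 3],
  [0, 1, 2, 5, 6, 3, 4], [0, 1, 2, 5, 6, 4, 3], [0, 1, 2, 6, 3, 4, 5], [0, 1, 2, 6, 3, 5, 4],
  [0, 1, 2, 6, 4, 3, 5], [0, 1, 2, 6, 4, 5, 3], [0, 1, 2, 6, 5, 3, 4], [0, 1, 2, 6, 5, 4, 3],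
  [0, 1, 3, 2, 4, 5, 6], [0, 1, 3, 2, 4, 6, 5], [0, 1, 3, 2, 5, 4, 6], [0, 1, 3, 2, 5, 6, 4],
  [0, 1, 3, 2, 6, 4, 5], [0, 1, 3, 2, 6, 5, 4], [0, 1, 3, 4, 2, 5, 6], [0, 1, 3, 4, 2, 6, 5],
  [0, 1, 3, 4, 5, 2, 6], [0, 1, 3, 4, 5, 6, 2], [0, 1, 3, 4, 6, 2, 5], [0, 1, 3, 4, 6, 5, 2],
  [0, 1, 3, 5, 2, 4, 6], [0, 1, 3, 5, 2, 6, 4], [0, 1, 3, 5, 4, 2, 6], [0, 1, 3, 5, 4, 6, 2],
  [0, 1, 3, 5, 6, 2, 4], [0, 1, 3, 5, 6, 4, 2], [0, 1, 3, 6, 2, 4, 5], [0, 1, 3, 6, 2, 5, 4],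
  [0, 1, 3, 6, 4, 2, 5], [0, 1, 3, 6, 4, 5, 2], [0, 1, 3, 6, 5, 2, 4], [0, 1, 3, 6, 5, 4, 2],
  [0, 1, 4, 2, 3, 5, 6], [0, 1, 4, 2, 3, 6, 5], [0, 1, 4, 2, 5, 3, 6], [0, 1, 4, 2, 5, 6, 3],
  [0, 1, 4, 2, 6, 3, 5], [0, 1, 4, 2, 6, 5, 3], [0, 1, 4, 3, 2, 5, 6], [0, 1, 4, 3, 2, 6, 5],
  [0, 1, 4, 3, 5, 2, 6], [0, 1, 4, 3, 5, 6, 2], [0, 1, 4, 3, 6, 2, 5], [0, 1, 4, 3, 6, 5, 2],
  [0, 1, 4, 5, 2, 3, 6], [0, 1, 4, 5, 2, 6, 3], [0, 1, 4, 5, 3, 2, 6], [0, 1, 4, 5, 3, 6, 2],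
  [0, 1, 4, 5, 6, 2, 3], [0, 1, 4, 5, 6, 3, 2], [0, 1, 4, 6, 2, 3, 5], [0, 1, 4, 6, 2, 5, 3],
  [0, 1, 4, 6, 3, 2, 5], [0, 1, 4, 6, 3, 5, 2], [0, 1, 4, 6, 5, 2, 3], [0, 1, 4, 6, 5, 3, 2],
  [0, 1, 5, 2, 3, 4, 6], [0, 1, 5, 2, 3, 6, 4], [0, 1, 5, 2, 4, 3, 6], [0, 1, 5, 2, 4, 6, 3],
  [0, 1, 5, 2, 6, 3, 4], [0, 1, 5, 2, 6, 4, 3], [0, 1, 5, 3, 2, 4, 6], [0, 1, 5, 3, 2, 6, 4],
  [0, 1, 5, 3, 4, 2, 6], [0, 1, 5, 3, 4, 6, 2], [0, 1, 5, 3, 6, 2, 4], [0, 1, 5, 3, 6, 4, 2],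
  [0, 1, 5, 4, 2, 3, 6], [0, 1, 5, 4, 2, 6, 3], [0, 1, 5, 4, 3, 2, 6], [0, 1, 5, 4, 3, 6, 2],
  [0, 1, 5, 4, 6, 2, 3], [0, 1, 5, 4, 6, 3, 2], [0, 1, 5, 6, 2, 3, 4], [0, 1, 5, 6, 2, 4, 3],
  [0, 1, 5, 6, 3, 2, 4], [0, 1, 5, 6, 3, 4, 2], [0, 1, 5, 6, 4, 2, 3], [0, 1, 5, 6, 4, 3, 2],
  [0, 1, 6, 2, 3, 4, 5], [0, 1, 6, 2, 3, 5, 4], [0, 1, 6, 2, 4, 3, 5], [0, 1, 6, 2, 4, 5, 3],
  [0, 1, 6, 2, 5, 3, 4], [0, 1, 6, 2, 5, 4, 3], [0, 1, 6, 3, 2, 4, 5], [0, 1, 6, 3, 2, 5, 4],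
  [0, 1, 6, 3, 4, 2, 5], [0, 1, 6, 3, 4, 5, 2], [0, 1, 6, 3, 5, 2, 4], [0, 1, 6, 3, 5, 4, 2],
  [0, 1, 6, 4, 2, 3, 5], [0, 1, 6, 4, 2, 5, 3], [0, 1, 6, 4, 3, 2, 5], [0, 1, 6, 4, 3, 5, 2],
  [0, 1, 6, 4, 5, 2, 3], [0, 1, 6, 4, 5, 3, 2], [0, 1, 6, 5, 2, 3, 4], [0, 1, 6, 5, 2, 4, 3],
  [0, 1, 6, 5, 3, 2, 4], [0, 1, 6, 5, 3, 4, 2], [0, 1, 6, 5, 4, 2, 3], [0, 1, 6, 5, 4, 3, 2]]

/-- The Fano plane `{0, 1, 3} + ℤ/7`, as a set of masks. -/
def B0 : ℕ := 317222135657175086343749896192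

/-- The Fano plane `{0, -1, -3} + ℤ/7`. -/
def B1 : ℕ := 20282412022683905777557066227712

/-- The union of the two Fano planes. -/
def B01 : ℕ := 20599634158341080863900816123904

/-- Whether the image of `v` under the permutation `f` belongs to `B`. -/
def desL (B : ℕ) (f : List ℕ) (v : List (Fin 7)) : Bool :=
  Nat.testBit B ((v.map (fun i : Fin 7 => 2 ^ (f.getD i 0))).sum)

theorem S1_eq : S1 = S1f.map (fun f => code (desL B0 f) L7 0) := by decide +kernel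

theorem S2_eq : S2 = S2f.map (fun f => code (desL B01 f) L7 0) := by decide +kernel

theorem S1f_perm : ∀ f ∈ S1f, (∀ i : Fin 7, f.getD i 0 < 7) ∧
    ∀ i j : Fin 7, f.getD i 0 = f.getD j 0 → i = j := by decide +kernel

theorem S2f_perm : ∀ f ∈ S2f, (∀ i : Fin 7, f.getD i 0 < 7) ∧
    ∀ i j : Fin 7, f.getD i 0 = f.getD j 0 → i = j := by decide +kernel

theorem dfs1 : dfs (pack (fun _ : Fin 21 => 8)) (memL S1) W7 (pack (fun _ : Fin 21 => 6))
    (pack (fun _ : Fin 21 => 3)) 0 = true := by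
  have h1 : pack (fun _ : Fin 21 => 8) = 10316166994044835624159368 := by decide +kernel
  have h2 : pack (fun _ : Fin 21 => 6) = 7737125245533626718119526 := by decide +kernel
  have h3 : pack (fun _ : Fin 21 => 3) = 3868562622766813359059763 := by decide +kernel
  rw [h1, h2, h3]
  decide +kernel

theorem dfs2 : dfs (pack (fun _ : Fin 21 => 8)) (memL S2) W7 (pack (fun _ : Fin 21 => 5))
    (pack (fun _ : Fin 21 => 4)) 0 = true := by
  have h1 : pack (fun _ : Fin 21 => 8) = 10316166994044835624159368 := by decide +kernel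
  have h2 : pack (fun _ : Fin 21 => 5) = 6447604371278022265099605 := by decide +kernel
  have h3 : pack (fun _ : Fin 21 => 4) = 5158083497022417812079684 := by decide +kernel
  rw [h1, h2, h3]
  decide +kernel

end Pool.Agent.H28S
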