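import Mathlib

/-!
# A verified search for 0-1 vectors with prescribed sums
-/

set_option autoImplicit false

namespace Pool.Agent.H28S

/-- The search: `ws` are the packed weights of the remaining variables, `s` and `z` the packed
counts of the chosen and of the omitted variables, `m` the code of the choices. -/
noncomputable def dfs (G : ℕ) (leaf : ℕ → Bool) (ws : List ℕ) : ℕ → ℕ → ℕ → Bool :=
  List.rec (motive := fun _ => ℕ → ℕ → ℕ → Bool) (fun _ _ m => leaf m)
    (fun w _ ih s z m =>
      and (cond (Nat.beq (Nat.land (s + w) G) 0) (ih (s + w) z (2 * m + 1)) true)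
        (cond (Nat.beq (Nat.land (z + w) G) 0) (ih s (z + w) (2 * m)) true)) ws

theorem dfs_cons (G : ℕ) (leaf : ℕ → Bool) (w : ℕ) (ws : List ℕ) (s z m : ℕ) :
    dfs G leaf (w :: ws) s z m =
      and (cond (Nat.beq (Nat.land (s + w) G) 0) (dfs G leaf ws (s + w) z (2 * m + 1)) true)
        (cond (Nat.beq (Nat.land (z + w) G) 0) (dfs G leaf ws s (z + w) (2 * m)) true) := rfl

theorem dfs_nil (G : ℕ) (leaf : ℕ → Bool) (s z m : ℕ) : dfs G leaf [] s z m = leaf m := rfl

/-- Packing of counts at most `15`. -/
def pack : {n : ℕ} → (Fin n → ℕ) → ℕ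
  | 0, _ => 0
  | _ + 1, d => d 0 + 16 * pack (fun i => d i.succ)

theorem pack_add : ∀ {n : ℕ} (d d' : Fin n → ℕ), pack (fun i => d i + d' i) = pack d + pack d'
  | 0, _, _ => rfl
  | n + 1, d, d' => by
    have h := pack_add (fun i => d i.succ) (fun i => d' i.succ)
    show d 0 + d' 0 + 16 * pack (fun i => d i.succ + d' i.succ) =
      d 0 + 16 * pack (fun i => d i.succ) + (d' 0 + 16 * pack (fun i => d' i.succ))
    rw [h]
    ring

theorem pack_land : ∀ {n : ℕ} (d : Fin n → ℕ), (∀ i, d i ≤ 7) →
    Nat.land (pack d) (pack (fun _ : Fin n => 8)) = 0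
  | 0, _, _ => by
    rw [pack, pack]
    decide
  | n + 1, d, hd => by
    have h := pack_land (fun i : Fin n => d i.succ) (fun i => hd _)
    show (d 0 + 16 * pack (fun i => d i.succ)) &&& (8 + 16 * pack (fun _ : Fin n => 8)) = 0
    have h' : (pack (fun i => d i.succ)) &&& (pack (fun _ : Fin n => 8)) = 0 := h
    have h0 := hd 0
    refine Nat.eq_of_testBit_eq fun j => ?_
    rw [Nat.testBit_and, Nat.zero_testBit]
    have e1 : d 0 + 16 * pack (fun i => d i.succ) = 2 ^ 4 * pack (fun i => d i.succ) + d 0 := by
      ring
    have e2 : 8 + 16 * pack (fun _ : Fin n => 8) = 2 ^ 4 * pack (fun _ : Fin n => 8) + 8 := by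
      ring
    rw [e1, e2, Nat.testBit_two_pow_mul_add _ (by omega), Nat.testBit_two_pow_mul_add _ (by norm_num)]
    by_cases hj : j < 4
    · rw [if_pos hj, if_pos hj]
      generalize d 0 = a at h0
      interval_cases j <;> interval_cases a <;> rfl
    · rw [if_neg hj, if_neg hj, ← Nat.testBit_and, h', Nat.zero_testBit]

/-- The code of the choices. -/
def code {V : Type*} (y : V → Bool) (L : List V) (m : ℕ) : ℕ :=
  L.foldl (fun m v => 2 * m + (y v).toNat) m

theorem code_inj {V : Type*} (y y' : V → Bool) : ∀ (L : List V) (m m' : ℕ),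
    code y L m = code y' L m' → m = m' ∧ ∀ v ∈ L, y v = y' v
  | [], m, m', h => ⟨h, fun v hv => absurd hv List.not_mem_nil⟩
  | v :: L, m, m', h => by
    obtain ⟨h1, h2⟩ := code_inj y y' L (2 * m + (y v).toNat) (2 * m' + (y' v).toNat) h
    have h3 : m = m' ∧ y v = y' v := by
      cases hy : y v <;> cases hy' : y' v <;> rw [hy, hy'] at h1 <;>
        simp only [Bool.toNat_true, Bool.toNat_false] at h1 <;>
        first | exact ⟨by omega, rfl⟩ | (exfalso; omega)
    refine ⟨h3.1, fun u hu => ?_⟩
    rcases List.mem_cons.1 hu with rfl | hu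
    · exact h3.2
    · exact h2 u hu

theorem dfs_sound {V : Type*} {n : ℕ} (inc : V → Fin n → ℕ) (leaf : ℕ → Bool) (y : V → Bool) :
    ∀ (L : List V) (d z : Fin n → ℕ) (m : ℕ),
      dfs (pack (fun _ : Fin n => 8)) leaf (L.map fun v => pack (inc v)) (pack d) (pack z) m =
        true →
      (∀ e, d e + (L.map fun v => if y v then inc v e else 0).sum ≤ 7) →
      (∀ e, z e + (L.map fun v => if y v then 0 else inc v e).sum ≤ 7) →
      leaf (code y L m) = true
  | [], _, _, _, h, _, _ => h
  | v :: L, d, z, m, h, hd, hz => by
    rw [List.map_cons, dfs_cons, ← pack_add, ← pack_add, Bool.and_eq_true] at h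
    have e1 : ∀ e, ((v :: L).map fun v => if y v then inc v e else 0).sum =
        (if y v then inc v e else 0) + (L.map fun v => if y v then inc v e else 0).sum := by
      intro e
      rw [List.map_cons, List.sum_cons]
    have e2 : ∀ e, ((v :: L).map fun v => if y v then 0 else inc v e).sum =
        (if y v then 0 else inc v e) + (L.map fun v => if y v then 0 else inc v e).sum := by
      intro e
      rw [List.map_cons, List.sum_cons]
    show leaf (code y L (2 * m + (y v).toNat)) = true
    cases hy : y v
    · have h3 : Nat.land (pack fun i => z i + inc v i) (pack (fun _ : Fin n => 8)) = 0 := by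
        refine pack_land _ fun e => ?_
        have := hz e
        rw [e2, hy] at this
        simp only [Bool.false_eq_true, if_false] at this
        omega
      have h4 := h.2
      rw [h3] at h4
      refine dfs_sound inc leaf y L d (fun i => z i + inc v i) (2 * m) h4 (fun e => ?_)
        (fun e => ?_)
      · have := hd e
        rw [e1] at this
        omega
      · have := hz e
        rw [e2, hy] at this
        simp only [Bool.false_eq_true, if_false] at this
        omega
    · have h3 : Nat.land (pack fun i => d i + inc v i) (pack (fun _ : Fin n => 8)) = 0 := by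
        refine pack_land _ fun e => ?_
        have := hd e
        rw [e1, hy] at this
        simp only [if_true] at this
        omega
      have h4 := h.1
      rw [h3] at h4
      refine dfs_sound inc leaf y L (fun i => d i + inc v i) z (2 * m + 1) h4 (fun e => ?_)
        (fun e => ?_)
      · have := hd e
        rw [e1, hy] at this
        simp only [if_true] at this
        omega
      · have := hz e
        rw [e2] at this
        omega

end Pool.Agent.H28S
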