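import Pool.Agent.H28S.Des7

/-!
# From the search to designs on `Fin 7`
-/

set_option autoImplicit false

namespace Pool.Agent.H28S

open Finset

theorem list_bound {n k : ℕ} (L : List (List (Fin n))) (hnd : (L.map List.toFinset).Nodup)
    (hk : ∀ v ∈ L, v.toFinset.card = k) (P : Finset (Fin n) → Prop) [DecidablePred P]
    (J : Finset (Fin n)) :
    (L.map (fun v => if P v.toFinset ∧ J ⊆ v.toFinset then 1 else 0)).sum ≤
      (univ.filter (fun A : Finset (Fin n) => A ∈ L.map List.toFinset ∧ J ⊆ A ∧ P A)).card := by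
  have h1 : (L.map (fun v => if P v.toFinset ∧ J ⊆ v.toFinset then 1 else 0)).sum =
      ((L.map List.toFinset).map (fun A => if P A ∧ J ⊆ A then 1 else 0)).sum := by
    rw [List.map_map]
    rfl
  rw [h1, ← List.sum_toFinset _ hnd, ← Finset.sum_filter, Finset.sum_const, smul_eq_mul, mul_one]
  refine Finset.card_le_card fun A hA => ?_
  rw [Finset.mem_filter, List.mem_toFinset] at hA
  rw [Finset.mem_filter]
  exact ⟨Finset.mem_univ _, hA.1, hA.2.2, hA.2.1⟩

/-- The search for a class of triples. -/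
theorem search7 (L : List (List (Fin 7))) (ws : List ℕ) (hws : L.map (fun v => pack (inc7 v)) = ws)
    (hnd : (L.map List.toFinset).Nodup) (hk : ∀ v ∈ L, v.toFinset.card = 3)
    (leaf : ℕ → Bool) (lam mu : ℕ) (hlam : lam ≤ 7) (hmu : mu ≤ 7)
    (hdfs : dfs (pack (fun _ : Fin 21 => 8)) leaf ws (pack (fun _ : Fin 21 => 7 - lam))
      (pack (fun _ : Fin 21 => 7 - mu)) 0 = true)
    (x : Finset (Fin 7) → Bool)
    (h1 : ∀ J : Finset (Fin 7), J.card = 2 →
      (univ.filter (fun A : Finset (Fin 7) => A ∈ L.map List.toFinset ∧ J ⊆ A ∧ x A = true)).card ≤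
        lam)
    (h0 : ∀ J : Finset (Fin 7), J.card = 2 →
      (univ.filter (fun A : Finset (Fin 7) => A ∈ L.map List.toFinset ∧ J ⊆ A ∧ x A = false)).card ≤
        mu) :
    leaf (code (fun v => x v.toFinset) L 0) = true := by
  subst hws
  refine dfs_sound inc7 leaf (fun v => x v.toFinset) L (fun _ => 7 - lam) (fun _ => 7 - mu) 0 hdfs
    (fun e => ?_) (fun e => ?_)
  · have h2 := (list_bound L hnd hk (fun A => x A = true) (P7 e).toFinset).trans
      (h1 _ (P7_card e))
    have h3 : (L.map fun v => if x v.toFinset = true then inc7 v e else 0) =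
        L.map (fun v => if x v.toFinset = true ∧ (P7 e).toFinset ⊆ v.toFinset then 1 else 0) := by
      refine List.map_congr_left fun v _ => ?_
      unfold inc7
      by_cases ha : x v.toFinset = true
      · by_cases hb : (P7 e).toFinset ⊆ v.toFinset
        · rw [if_pos ha, if_pos hb, if_pos ⟨ha, hb⟩]
        · rw [if_pos ha, if_neg hb, if_neg (fun h => hb h.2)]
      · rw [if_neg ha, if_neg (fun h => ha h.1)]
    rw [h3]
    omega
  · have h2 := (list_bound L hnd hk (fun A => x A = false) (P7 e).toFinset).trans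
      (h0 _ (P7_card e))
    have h3 : (L.map fun v => if x v.toFinset = true then 0 else inc7 v e) =
        L.map (fun v => if x v.toFinset = false ∧ (P7 e).toFinset ⊆ v.toFinset then 1 else 0) := by
      refine List.map_congr_left fun v _ => ?_
      unfold inc7
      by_cases ha : x v.toFinset = true
      · rw [if_pos ha, if_neg (fun h => by rw [ha] at h; exact Bool.noConfusion h.1)]
      · rw [if_neg ha]
        rw [Bool.not_eq_true] at ha
        by_cases hb : (P7 e).toFinset ⊆ v.toFinset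
        · rw [if_pos hb, if_pos ⟨ha, hb⟩]
        · rw [if_neg hb, if_neg (fun h => hb h.2)]
    rw [h3]
    omega

/-- Whether `A` belongs to `B`. -/
def desS (B : ℕ) (A : Finset (Fin 7)) : Bool := Nat.testBit B (∑ i ∈ A, 2 ^ (i : ℕ))

theorem exists_perm_of_list (f : List ℕ) (h : (∀ i : Fin 7, f.getD i 0 < 7) ∧
    ∀ i j : Fin 7, f.getD i 0 = f.getD j 0 → i = j) :
    ∃ σ : Equiv.Perm (Fin 7), ∀ i, (σ i : ℕ) = f.getD i 0 := by
  have hinj : Function.Injective (fun i : Fin 7 => (⟨f.getD i 0, h.1 i⟩ : Fin 7)) := by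
    intro i j hij
    exact h.2 i j (congrArg Fin.val hij)
  exact ⟨Equiv.ofBijective _ (Finite.injective_iff_bijective.1 hinj), fun i => rfl⟩

theorem desL_eq (B : ℕ) (f : List ℕ) (σ : Equiv.Perm (Fin 7)) (hσ : ∀ i, (σ i : ℕ) = f.getD i 0)
    (v : List (Fin 7)) (hv : v.Nodup) : desL B f v = desS B (v.toFinset.map σ.toEmbedding) := by
  unfold desL desS
  rw [Finset.sum_map, List.sum_toFinset _ hv]
  congr 2
  refine List.map_congr_left fun i _ => ?_
  rw [← hσ]
  rfl

/-- The result of a search with the list of solutions `fs.map (code of B ∘ f)`. -/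
theorem perm_of_mem (B : ℕ) (S : List ℕ) (fs : List (List ℕ))
    (hS : S = fs.map (fun f => code (desL B f) L7 0))
    (hfs : ∀ f ∈ fs, (∀ i : Fin 7, f.getD i 0 < 7) ∧
      ∀ i j : Fin 7, f.getD i 0 = f.getD j 0 → i = j) (x : Finset (Fin 7) → Bool)
    (h : code (fun v => x v.toFinset) L7 0 ∈ S) :
    ∃ σ : Equiv.Perm (Fin 7), ∀ A : Finset (Fin 7), A.card = 3 →
      x A = desS B (A.map σ.toEmbedding) := by
  rw [hS, List.mem_map] at h
  obtain ⟨f, hf, hc⟩ := h
  obtain ⟨σ, hσ⟩ := exists_perm_of_list f (hfs f hf)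
  refine ⟨σ, fun A hA => ?_⟩
  obtain ⟨v, hv, rfl⟩ := List.mem_map.1 (L7_all A hA)
  have h1 := (code_inj _ _ L7 0 0 hc).2 v hv
  rw [← h1]
  exact desL_eq B f σ hσ v (L7_nd v hv)

/-- The regular classes of triples with `lam ≤ 2`. -/
theorem design7 (x : Finset (Fin 7) → Bool) (lam : ℕ)
    (h : ∀ J : Finset (Fin 7), J.card = 2 →
      (univ.filter (fun A : Finset (Fin 7) => A.card = 3 ∧ J ⊆ A ∧ x A = true)).card = lam) :
    (lam = 1 → ∃ σ : Equiv.Perm (Fin 7), ∀ A : Finset (Fin 7), A.card = 3 →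
      x A = desS B0 (A.map σ.toEmbedding)) ∧
    (lam = 2 → ∃ σ : Equiv.Perm (Fin 7), ∀ A : Finset (Fin 7), A.card = 3 →
      x A = desS B01 (A.map σ.toEmbedding)) := by
  have hmem : ∀ A : Finset (Fin 7), A ∈ L7.map List.toFinset ↔ A.card = 3 := by
    intro A
    constructor
    · intro hA
      obtain ⟨v, hv, rfl⟩ := List.mem_map.1 hA
      exact L7_card v hv
    · exact L7_all A
  have h1 : ∀ J : Finset (Fin 7), J.card = 2 →
      (univ.filter (fun A : Finset (Fin 7) => A ∈ L7.map List.toFinset ∧ J ⊆ A ∧ x A = true)).card =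
        lam := by
    intro J hJ
    rw [← h J hJ]
    congr 1
    refine Finset.filter_congr fun A _ => ?_
    rw [hmem]
  have h0 : ∀ J : Finset (Fin 7), J.card = 2 →
      (univ.filter (fun A : Finset (Fin 7) => A ∈ L7.map List.toFinset ∧ J ⊆ A ∧
        x A = false)).card = 5 - lam := by
    intro J hJ
    have h2 := five7 J hJ
    rw [← Finset.card_filter_add_card_filter_not (s := univ.filter
      (fun A : Finset (Fin 7) => A.card = 3 ∧ J ⊆ A)) (fun A => x A = true),
      Finset.filter_filter, Finset.filter_filter] at h2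
    have h3 := h J hJ
    have e1 : (univ.filter (fun A : Finset (Fin 7) => (A.card = 3 ∧ J ⊆ A) ∧ x A = true)) =
        univ.filter (fun A : Finset (Fin 7) => A.card = 3 ∧ J ⊆ A ∧ x A = true) :=
      Finset.filter_congr fun A _ => and_assoc
    have e2 : (univ.filter (fun A : Finset (Fin 7) => (A.card = 3 ∧ J ⊆ A) ∧ ¬ x A = true)) =
        univ.filter (fun A : Finset (Fin 7) => A ∈ L7.map List.toFinset ∧ J ⊆ A ∧
          x A = false) :=
      Finset.filter_congr fun A _ => by rw [hmem, and_assoc, Bool.not_eq_true]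
    rw [e1, e2] at h2
    omega
  constructor
  · rintro rfl
    refine perm_of_mem B0 S1 S1f S1_eq S1f_perm x (memL_mem _ _ ?_)
    exact search7 L7 W7 W7_eq L7_nodup L7_card (memL S1) 1 4 (by norm_num) (by norm_num) dfs1 x
      (fun J hJ => (h1 J hJ).le) (fun J hJ => (h0 J hJ).le)
  · rintro rfl
    refine perm_of_mem B01 S2 S2f S2_eq S2f_perm x (memL_mem _ _ ?_)
    exact search7 L7 W7 W7_eq L7_nodup L7_card (memL S2) 2 3 (by norm_num) (by norm_num) dfs2 x
      (fun J hJ => (h1 J hJ).le) (fun J hJ => (h0 J hJ).le)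

end Pool.Agent.H28S
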