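import Pool.Agent.H28S.Sea7

/-!
# A second class of triples, disjoint from the Fano plane `B0`
-/

set_option autoImplicit false
set_option maxRecDepth 100000

namespace Pool.Agent.H28S

open Finset

/-- The 28 triples outside of the Fano plane `B0`. -/
def L28 : List (List (Fin 7)) := [
  [4, 5, 6], [3, 5, 6], [3, 4, 5], [2, 5, 6], [2, 4, 6], [2, 4, 5], [2, 3, 6], [2, 3, 4],
  [1, 4, 6], [1, 4, 5], [1, 3, 6], [1, 3, 5], [1, 3, 4], [1, 2, 6], [1, 2, 5], [1, 2, 3],
  [0, 5, 6], [0, 4, 6], [0, 3, 6], [0, 3, 5], [0, 3, 4], [0, 2, 5], [0, 2, 4], [0, 2, 3],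
  [0, 1, 6], [0, 1, 5], [0, 1, 4], [0, 1, 2]]

/-- The packed incidences. -/
def W28 : List ℕ := [
  1289206049823413143339008, 1209239414263882237083648, 4741966148447961612288,
  1208925896175822840004608, 75557936064983338057728, 4722371267944249294848,
  295219980365576798208, 1153220571769602048, 75557863727018130014208, 4722366482942659657728,
  295147906279132889088, 18446744142697463808, 1152921509170249728, 72058693566332928,
  4503668363624448, 17592471257088, 1208925819614629175820288, 75557863725914324471808,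
  295147905179353874688, 18446744073709617408, 1152921504606851328, 4503599627436048,
  281474976714768, 17592186044688, 1099512676353, 68719542273, 4294971393, 16777233]

theorem W28_eq : L28.map (fun v => pack (inc7 v)) = W28 := by decide +kernel

theorem L28_nodup : (L28.map List.toFinset).Nodup := by decide +kernel

theorem L28_card : ∀ v ∈ L28, v.toFinset.card = 3 := by decide +kernel

theorem L28_mem : ∀ A : Finset (Fin 7),
    A ∈ L28.map List.toFinset ↔ (A.card = 3 ∧ desS B0 A = false) := by decide +kernel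

theorem one7 : ∀ J : Finset (Fin 7), J.card = 2 →
    (univ.filter (fun A : Finset (Fin 7) => A.card = 3 ∧ J ⊆ A ∧ desS B0 A = false)).card = 4 := by
  decide +kernel

/-- Codes. -/
def S3 : List ℕ := [
  71353364, 75763912, 18220289, 135348802, 6883457, 50860580, 42084370, 136356136]

/-- Automorphisms of the Fano plane `B0`. -/
def S3f : List (List ℕ) := [
  [0, 1, 2, 3, 4, 5, 6], [0, 1, 4, 3, 2, 6, 5], [0, 1, 5, 3, 6, 2, 4], [0, 1, 6, 3, 5, 4, 2],
  [0, 3, 2, 1, 5, 4, 6], [0, 3, 4, 1, 6, 2, 5], [0, 3, 5, 1, 2, 6, 4], [0, 3, 6, 1, 4, 5, 2]]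

theorem S3_eq : S3 = S3f.map (fun f => code (desL B1 f) L28 0) := by decide +kernel

theorem S3f_perm : ∀ f ∈ S3f, (∀ i : Fin 7, f.getD i 0 < 7) ∧
    ∀ i j : Fin 7, f.getD i 0 = f.getD j 0 → i = j := by decide +kernel

theorem S3f_aut : ∀ f ∈ S3f, ∀ v ∈ L7, desL B0 f v = desL B0 [0, 1, 2, 3, 4, 5, 6] v := by
  decide +kernel

theorem B0_B1 : ∀ A : Finset (Fin 7), desS B0 A = true → desS B1 A = false := by decide +kernel

theorem B01_iff : ∀ A : Finset (Fin 7), desS B01 A = (desS B0 A || desS B1 A) := by decide +kernel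

theorem dfs3 : dfs (pack (fun _ : Fin 21 => 8)) (memL S3) W28 (pack (fun _ : Fin 21 => 6))
    (pack (fun _ : Fin 21 => 4)) 0 = true := by
  have h1 : pack (fun _ : Fin 21 => 8) = 10316166994044835624159368 := by decide +kernel
  have h2 : pack (fun _ : Fin 21 => 6) = 7737125245533626718119526 := by decide +kernel
  have h3 : pack (fun _ : Fin 21 => 4) = 5158083497022417812079684 := by decide +kernel
  rw [h1, h2, h3]
  decide +kernel

theorem dfs4 : dfs (pack (fun _ : Fin 21 => 8)) (fun _ => false) W28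
    (pack (fun _ : Fin 21 => 5)) (pack (fun _ : Fin 21 => 5)) 0 = true := by
  have h1 : pack (fun _ : Fin 21 => 8) = 10316166994044835624159368 := by decide +kernel
  have h2 : pack (fun _ : Fin 21 => 5) = 6447604371278022265099605 := by decide +kernel
  rw [h1, h2]
  decide +kernel

/-- The automorphisms of `B0` respect membership in `B0`. -/
theorem aut_of_mem {f : List ℕ} (hf : f ∈ S3f) (σ : Equiv.Perm (Fin 7))
    (hσ : ∀ i, (σ i : ℕ) = f.getD i 0) (A : Finset (Fin 7)) (hA : A.card = 3) :
    desS B0 (A.map σ.toEmbedding) = desS B0 A := by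
  obtain ⟨v, hv, rfl⟩ := List.mem_map.1 (L7_all A hA)
  have h1 := S3f_aut f hf v hv
  rw [desL_eq B0 f σ hσ v (L7_nd v hv), desL_eq B0 [0, 1, 2, 3, 4, 5, 6] (Equiv.refl _)
    (by decide) v (L7_nd v hv)] at h1
  rw [h1]
  congr 1
  exact Finset.map_refl

/-- A class of triples outside of the Fano plane `B0`. -/
theorem second7 (y : Finset (Fin 7) → Bool) (lam : ℕ)
    (hy : ∀ A : Finset (Fin 7), A.card = 3 → y A = true → desS B0 A = false)
    (h : ∀ J : Finset (Fin 7), J.card = 2 →
      (univ.filter (fun A : Finset (Fin 7) => A.card = 3 ∧ J ⊆ A ∧ y A = true)).card = lam) :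
    (lam = 1 → ∃ σ : Equiv.Perm (Fin 7), (∀ A : Finset (Fin 7), A.card = 3 →
      y A = desS B1 (A.map σ.toEmbedding)) ∧ ∀ A : Finset (Fin 7), A.card = 3 →
      desS B0 (A.map σ.toEmbedding) = desS B0 A) ∧ lam ≠ 2 := by
  have h1 : ∀ J : Finset (Fin 7), J.card = 2 →
      (univ.filter (fun A : Finset (Fin 7) => A ∈ L28.map List.toFinset ∧ J ⊆ A ∧
        y A = true)).card = lam := by
    intro J hJ
    rw [← h J hJ]
    congr 1
    refine Finset.filter_congr fun A _ => ?_
    rw [L28_mem]
    constructor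
    · rintro ⟨⟨a, b⟩, c, d⟩
      exact ⟨a, c, d⟩
    · rintro ⟨a, c, d⟩
      exact ⟨⟨a, hy A a d⟩, c, d⟩
  have h0 : ∀ J : Finset (Fin 7), J.card = 2 →
      (univ.filter (fun A : Finset (Fin 7) => A ∈ L28.map List.toFinset ∧ J ⊆ A ∧
        y A = false)).card = 4 - lam := by
    intro J hJ
    have h2 := one7 J hJ
    rw [← Finset.card_filter_add_card_filter_not (s := univ.filter
      (fun A : Finset (Fin 7) => A.card = 3 ∧ J ⊆ A ∧ desS B0 A = false)) (fun A => y A = true),
      Finset.filter_filter, Finset.filter_filter] at h2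
    have h3 := h1 J hJ
    have e1 : (univ.filter (fun A : Finset (Fin 7) =>
        (A.card = 3 ∧ J ⊆ A ∧ desS B0 A = false) ∧ y A = true)) =
        univ.filter (fun A : Finset (Fin 7) => A ∈ L28.map List.toFinset ∧ J ⊆ A ∧
          y A = true) :=
      Finset.filter_congr fun A _ => by
        rw [L28_mem]
        constructor
        · rintro ⟨⟨a, b, c⟩, d⟩
          exact ⟨⟨a, c⟩, b, d⟩
        · rintro ⟨⟨a, c⟩, b, d⟩
          exact ⟨⟨a, b, c⟩, d⟩
    have e2 : (univ.filter (fun A : Finset (Fin 7) =>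
        (A.card = 3 ∧ J ⊆ A ∧ desS B0 A = false) ∧ ¬ y A = true)) =
        univ.filter (fun A : Finset (Fin 7) => A ∈ L28.map List.toFinset ∧ J ⊆ A ∧
          y A = false) :=
      Finset.filter_congr fun A _ => by
        rw [L28_mem, Bool.not_eq_true]
        constructor
        · rintro ⟨⟨a, b, c⟩, d⟩
          exact ⟨⟨a, c⟩, b, d⟩
        · rintro ⟨⟨a, c⟩, b, d⟩
          exact ⟨⟨a, b, c⟩, d⟩
    rw [e1, e2] at h2
    omega
  constructor
  · rintro rfl
    have hm := memL_mem _ _ (search7 L28 W28 W28_eq L28_nodup L28_card (memL S3) 1 3 (by norm_num)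
      (by norm_num) dfs3 y (fun J hJ => (h1 J hJ).le) (fun J hJ => (h0 J hJ).le))
    rw [S3_eq, List.mem_map] at hm
    obtain ⟨f, hf, hc⟩ := hm
    obtain ⟨σ, hσ⟩ := exists_perm_of_list f (S3f_perm f hf)
    refine ⟨σ, fun A hA => ?_, fun A hA => aut_of_mem hf σ hσ A hA⟩
    by_cases hA0 : desS B0 A = false
    · obtain ⟨v, hv, hvA⟩ := List.mem_map.1 ((L28_mem A).2 ⟨hA, hA0⟩)
      have hv7 : v.Nodup := by
        have h5 := L28_card v hv
        have : ∀ v ∈ L28, v.Nodup := by decide +kernel
        exact this v hv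
      have h4 := (code_inj _ _ L28 0 0 hc).2 v hv
      rw [← hvA, ← h4]
      exact desL_eq B1 f σ hσ v hv7
    · rw [Bool.not_eq_false] at hA0
      have h4 : y A = false := by
        by_contra h5
        rw [Bool.not_eq_false] at h5
        rw [hy A hA h5] at hA0
        exact Bool.noConfusion hA0
      rw [h4, B0_B1 _ ((aut_of_mem hf σ hσ A hA).trans hA0)]
  · rintro rfl
    have hm := search7 L28 W28 W28_eq L28_nodup L28_card (fun _ => false) 2 2 (by norm_num)
      (by norm_num) dfs4 y (fun J hJ => (h1 J hJ).le) (fun J hJ => (h0 J hJ).le)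
    exact Bool.noConfusion hm

end Pool.Agent.H28S
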